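import Pool.Agent.H16.VA.Targets

/-!
# Module CO : the conformal vector
-/

set_option autoImplicit false

open Finset MvPolynomial
open Pool.Agent.H16.VA

namespace Pool.Agent.H21.VA

theorem choose_m1 (j : ℕ) : ((-1 : ℤ) ^ j * Ring.choose (-1 : ℤ) j) = 1 := by
  induction j with
  | zero => simp
  | succ j ih =>
    have h := Ring.choose_succ_succ (-1 : ℤ) j
    have h0 : Ring.choose ((-1 : ℤ) + 1) (j + 1) = 0 := by
      rw [neg_add_cancel, Ring.choose_zero_succ]
    rw [h0] at h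
    have : Ring.choose (-1 : ℤ) (j + 1) = - Ring.choose (-1 : ℤ) j := by linarith
    rw [this, pow_succ]
    linarith

theorem choose_m2 (j : ℕ) : ((-1 : ℤ) ^ j * Ring.choose (-2 : ℤ) j) = j + 1 := by
  induction j with
  | zero => simp
  | succ j ih =>
    have h := Ring.choose_succ_succ (-2 : ℤ) j
    have h0 : (-2 : ℤ) + 1 = -1 := by norm_num
    rw [h0] at h
    have h1 := choose_m1 (j + 1)
    rw [h, pow_succ] at h1
    rw [pow_succ]
    push_cast
    linarith

theorem choose3 (m : ℤ) : 6 * Ring.choose (m + 1) 3 = m ^ 3 - m := by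
  have h := Ring.descPochhammer_eq_factorial_smul_choose (m + 1) 3
  rw [descPochhammer_succ_right, descPochhammer_succ_right, descPochhammer_succ_right,
    descPochhammer_zero] at h
  rw [← Polynomial.eval_eq_smeval] at h
  simp [Nat.factorial] at h
  linarith

section general

variable {V : Type} [AddCommGroup V] [Module ℂ V] (W : VertexAlgebra V)

/-- modes of `T u` -/
theorem T_modes (hAS : AssocStmt) (u w : V) (k : ℤ) :
    W.Y (W.T u) k w = (-k : ℤ) • W.Y u (k - 1) w := by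
  have hT : W.T u = W.Y u (-2) W.vac := by
    have h := W.T_comm u (-1) W.vac
    rw [W.creat, W.T_vac, map_zero, sub_zero] at h
    rw [h]
    norm_num
  rw [hT, hAS V W u W.vac (-2), prodF_apply]
  unfold brA P1
  have h1 : ∀ j : ℕ, ((-1 : ℤ) ^ j * Ring.choose (-2 : ℤ) j) •
      W.Y u (0 + -2 - j) (W.Y W.vac (k + j) w) =
      if k + j = -1 then ((j : ℤ) + 1) • W.Y u (-2 - j) w else 0 := by
    intro j
    rw [choose_m2, W.vac_mode, zero_add]
    split_ifs with h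
    · rfl
    · rw [map_zero, smul_zero]
  have h2 : ∀ j : ℕ, ((-1 : ℤ) ^ j * Ring.choose (-2 : ℤ) j) •
      W.Y W.vac (k + -2 - j) (W.Y u (0 + j) w) =
      if k + -2 - j = -1 then ((j : ℤ) + 1) • W.Y u j w else 0 := by
    intro j
    rw [choose_m2, W.vac_mode, zero_add]
    split_ifs with h
    · rfl
    · rw [smul_zero]
  rw [finsum_congr h1, finsum_congr h2]
  have hn : (((-2 : ℤ).negOnePow : ℤˣ) : ℤ) = 1 := by
    rw [Int.negOnePow_even _ ⟨-1, by norm_num⟩]; rfl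
  rw [hn, one_smul]
  rcases le_or_gt k (-1) with hk | hk
  · obtain ⟨n, rfl⟩ : ∃ n : ℕ, k = -(n : ℤ) - 1 := ⟨(-1 - k).toNat, by omega⟩
    rw [finsum_eq_single _ n, finsum_eq_single _ 0]
    · rw [if_pos (by omega), if_neg (by omega), sub_zero]
      have e1 : (-(-(n : ℤ) - 1)) = n + 1 := by ring
      have e2 : (-(n : ℤ) - 1 - 1) = -2 - n := by ring
      rw [e1, e2]
    · intro j hj
      rw [if_neg (by omega)]
    · intro j hj
      rw [if_neg (by omega)]
  · obtain ⟨n, rfl⟩ : ∃ n : ℕ, k = n := ⟨k.toNat, by omega⟩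
    rw [finsum_eq_single _ 0, finsum_eq_single _ (n - 1)]
    · rw [if_neg (by omega), zero_sub]
      by_cases h0 : n = 0
      · subst h0
        rw [if_neg (by simp)]
        simp
      · rw [if_pos (by omega), ← neg_smul]
        have e1 : ((n - 1 : ℕ) : ℤ) = n - 1 := by omega
        rw [e1]
        congr 1
        ring
    · intro j hj
      rw [if_neg (by omega)]
    · intro j hj
      rw [if_neg (by omega)]

/-- the commutator formula, with a bound -/
theorem comm_modes (hCF : CommStmt) (u v w : V) (m k : ℤ) (N : ℕ)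
    (hN : ∀ j : ℕ, N ≤ j → W.Y u j v = 0) :
    W.Y u m (W.Y v k w) = W.Y v k (W.Y u m w) +
      ∑ j ∈ range N, (Ring.choose m j : ℤ) • W.Y (W.Y u j v) (m + k - j) w := by
  have h := hCF V W u v w m k
  rw [S_eq N (fun j hj => by rw [hN j hj]; simp)] at h
  rw [← h]
  abel

end general

section model

variable {A : Type} [CommRing A] [Algebra ℂ A] (D : DData A) (M : Model D)

/-- `T^(n)` for integers -/
noncomputable def tt (n : ℤ) (y : A) : A := if 0 ≤ n then D.Tj n.toNat y else 0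

theorem tt_nat (n : ℕ) (y : A) : tt D n y = D.Tj n y := by
  unfold tt
  rw [if_pos (by omega)]
  simp

theorem tt_neg (n : ℤ) (hn : n < 0) (y : A) : tt D n y = 0 := by
  unfold tt
  rw [if_neg (by omega)]

theorem Tj_T (n : ℕ) (y : A) : D.Tj n (D.T y) = ((n : ℂ) + 1) • D.Tj (n + 1) y := by
  unfold DData.Tj
  rw [Function.iterate_succ_apply, smul_smul]
  congr 1
  rw [Nat.factorial_succ]
  have : ((n : ℂ) + 1) ≠ 0 := Nat.cast_add_one_ne_zero n
  push_cast
  rw [mul_inv, ← mul_assoc, mul_inv_cancel₀ this, one_mul]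

theorem tt_T (n : ℤ) (y : A) : tt D n (D.T y) = ((n : ℂ) + 1) • tt D (n + 1) y := by
  rcases lt_or_ge n 0 with h | h
  · rw [tt_neg D n h]
    rcases eq_or_ne n (-1) with rfl | h'
    · simp
    · rw [tt_neg D (n + 1) (by omega), smul_zero]
  · obtain ⟨k, rfl⟩ := Int.eq_ofNat_of_zero_le h
    rw [tt_nat, Tj_T]
    have : ((k : ℤ) + 1) = ((k + 1 : ℕ) : ℤ) := by push_cast; ring
    rw [this, tt_nat]
    simp

theorem a_mode (a b : A) (p : ℤ) : M.W.Y (C a) p (C b) = C (tt D (-p - 1) a * b) := by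
  rcases lt_or_ge p 0 with h | h
  · obtain ⟨n, rfl⟩ : ∃ n : ℕ, p = -(n : ℤ) - 1 := ⟨(-1 - p).toNat, by omega⟩
    rw [M.a_neg]
    have : (-(-(n : ℤ) - 1) - 1) = n := by ring
    rw [this, tt_nat]
  · obtain ⟨n, rfl⟩ := Int.eq_ofNat_of_zero_le h
    rw [M.a_nonneg, tt_neg D _ (by omega), zero_mul, map_zero]

theorem one_mode (n : ℤ) (v : MvPolynomial ℕ A) :
    M.W.Y (C 1) n v = if n = -1 then v else 0 := by
  have : (C 1 : MvPolynomial ℕ A) = M.W.vac := by rw [M.vac, C_1]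
  rw [this, M.W.vac_mode]

/-- the formula for the modes of `2 β_(-1) y' + β_(-2) x'` -/
noncomputable def om (x : A) : MvPolynomial ℕ A := (2 : ℂ) • (X 0 * C (D.T x)) + X 1 * C x

theorem om_mode (hAS : AssocStmt) (x : A) (m : ℤ) (w : MvPolynomial ℕ A) :
    M.W.Y (om D x) m w =
      (2 : ℂ) • (∑ᶠ j : ℕ, M.W.Y (X 0) (-1 - j) (M.W.Y (C (D.T x)) (m + j) w) +
        ∑ᶠ j : ℕ, M.W.Y (C (D.T x)) (m - 1 - j) (M.W.Y (X 0) j w)) +
      (∑ᶠ j : ℕ, ((j : ℤ) + 1) • M.W.Y (X 0) (-2 - j) (M.W.Y (C x) (m + j) w) -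
        ∑ᶠ j : ℕ, ((j : ℤ) + 1) • M.W.Y (C x) (m - 2 - j) (M.W.Y (X 0) j w)) := by
  have h0 : (X 0 * C (D.T x) : MvPolynomial ℕ A) = M.W.Y (X 0) (-1) (C (D.T x)) := by
    have := M.b_neg 0 (C (D.T x))
    simpa using this.symm
  have h1 : (X 1 * C x : MvPolynomial ℕ A) = M.W.Y (X 0) (-2) (C x) := by
    have := M.b_neg 1 (C x)
    rw [← this]
    norm_num
  unfold om
  rw [h0, h1, map_add, map_smul, hAS _ M.W (X 0) (C (D.T x)) (-1), hAS _ M.W (X 0) (C x) (-2)]
  change (2 : ℂ) • prodF _ _ _ _ _ m w + prodF _ _ _ _ _ m w = _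
  rw [prodF_apply, prodF_apply]
  unfold brA P1
  have hn1 : (((-1 : ℤ).negOnePow : ℤˣ) : ℤ) = -1 := by
    rw [Int.negOnePow_odd _ ⟨-1, by norm_num⟩]; rfl
  have hn : (((-2 : ℤ).negOnePow : ℤˣ) : ℤ) = 1 := by
    rw [Int.negOnePow_even _ ⟨-1, by norm_num⟩]; rfl
  rw [hn, hn1, one_smul, neg_smul, one_smul, sub_neg_eq_add]
  simp only [choose_m1, choose_m2, one_smul, zero_add]
  have e1 : m + -1 = m - 1 := by ring
  have e2 : m + -2 = m - 2 := by ring
  rw [e1, e2]

theorem C_sm (c : ℂ) (a : A) : (C (c • a) : MvPolynomial ℕ A) = c • C a := by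
  rw [C_apply, C_apply, smul_monomial]

theorem om_C (hAS : AssocStmt) (x a : A) (m : ℕ) (K : ℕ) (hK : ∀ k, K ≤ k → D.d k a = 0) :
    M.W.Y (om D x) m (C a) =
      C (∑ j ∈ range K, ((j : ℂ) + 1 - 2 * m) • (tt D (j + 1 - m) x * D.d j a)) := by
  have hd : ∀ j : ℕ, M.W.Y (X 0) j (C a) = C (D.d j a) := by
    intro j
    rw [M.b_nonneg, mapDer_C]
  have z1 : ∀ j : ℕ, M.W.Y (C (D.T x)) ((m : ℤ) + j) (C a) = 0 := by
    intro j
    have : (m : ℤ) + j = ((m + j : ℕ) : ℤ) := by push_cast; ring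
    rw [this, M.a_nonneg]
  have z2 : ∀ j : ℕ, M.W.Y (C x) ((m : ℤ) + j) (C a) = 0 := by
    intro j
    have : (m : ℤ) + j = ((m + j : ℕ) : ℤ) := by push_cast; ring
    rw [this, M.a_nonneg]
  rw [om_mode D M hAS]
  simp only [z1, z2, map_zero, smul_zero, finsum_zero, zero_add, zero_sub, hd, a_mode]
  rw [S_eq K (fun j hj => by rw [hK j hj]; simp), S_eq K (fun j hj => by rw [hK j hj]; simp)]
  have hz : ∀ j : ℕ, ((j : ℤ) + 1) • (C (tt D (-((m : ℤ) - 2 - j) - 1) x * D.d j a) :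
      MvPolynomial ℕ A) = C (((j : ℂ) + 1) • (tt D (j + 1 - m) x * D.d j a)) := by
    intro j
    rw [C_sm, ← Int.cast_smul_eq_zsmul ℂ]
    have e1 : -((m : ℤ) - 2 - j) - 1 = j + 1 - m := by ring
    rw [e1]
    push_cast
    rfl
  simp only [hz]
  rw [← map_sum, ← map_sum, ← C_sm, ← map_neg, ← map_add]
  congr 1
  rw [Finset.smul_sum, ← Finset.sum_neg_distrib, ← Finset.sum_add_distrib]
  apply Finset.sum_congr rfl
  intro j _
  rw [tt_T]
  have e1 : -((m : ℤ) - 1 - j) - 1 + 1 = j + 1 - m := by ring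
  rw [e1, smul_mul_assoc, smul_smul, ← neg_smul, ← add_smul]
  congr 1
  push_cast
  ring

theorem om_zero (hAS : AssocStmt) (x a : A)
    (hT : ∀ a, D.T a = ∑ᶠ j : ℕ, ((j : ℂ) + 1) • (D.Tj (j + 1) x * D.d j a)) :
    M.W.Y (om D x) 0 (C a) = C (D.T a) := by
  obtain ⟨K, hK⟩ := D.fin a
  have h := om_C D M hAS x a 0 K hK
  rw [Nat.cast_zero] at h
  rw [h, hT a, S_eq K (fun j hj => by rw [hK j hj]; simp)]
  congr 1
  apply Finset.sum_congr rfl
  intro j _
  have e1 : (j : ℤ) + 1 - ((0 : ℕ) : ℤ) = ((j + 1 : ℕ) : ℤ) := by push_cast; ring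
  rw [Nat.cast_zero] at e1
  rw [e1, tt_nat]
  simp

theorem om_one (hAS : AssocStmt) (x a : A) :
    M.W.Y (om D x) 1 (C a) = C (∑ᶠ j : ℕ, ((j : ℂ) - 1) • (D.Tj j x * D.d j a)) := by
  obtain ⟨K, hK⟩ := D.fin a
  have h := om_C D M hAS x a 1 K hK
  rw [Nat.cast_one] at h
  rw [h, S_eq K (fun j hj => by rw [hK j hj]; simp)]
  congr 1
  apply Finset.sum_congr rfl
  intro j _
  have e1 : (j : ℤ) + 1 - 1 = ((j : ℕ) : ℤ) := by ring
  rw [e1, tt_nat]
  congr 1
  push_cast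
  ring

theorem om_x (hAS : AssocStmt) (x : A) (hx : ∀ k, D.d k x = if k = 0 then 1 else 0) (m : ℕ) :
    M.W.Y (om D x) m (C x) = C ((1 - 2 * (m : ℂ)) • tt D (1 - m) x) := by
  rw [om_C D M hAS x x m 1 (fun k hk => by rw [hx, if_neg (by omega)])]
  rw [Finset.sum_range_one, hx]
  simp

theorem om_x2 (hAS : AssocStmt) (x : A) (hx : ∀ k, D.d k x = if k = 0 then 1 else 0) (m : ℕ)
    (hm : 2 ≤ m) : M.W.Y (om D x) m (C x) = 0 := by
  rw [om_x D M hAS x hx, tt_neg D _ (by omega)]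
  simp

theorem Tj_zero (x : A) : D.Tj 0 x = x := by
  unfold DData.Tj
  simp

theorem Tj_one (x : A) : D.Tj 1 x = D.T x := by
  unfold DData.Tj
  simp

theorem om_x1 (hAS : AssocStmt) (x : A) (hx : ∀ k, D.d k x = if k = 0 then 1 else 0) :
    M.W.Y (om D x) 1 (C x) = - C x := by
  have h := om_x D M hAS x hx 1
  rw [Nat.cast_one] at h
  rw [h]
  have e1 : (1 : ℤ) - 1 = ((0 : ℕ) : ℤ) := by simp
  rw [e1, tt_nat, Tj_zero, ← map_neg]
  congr 1
  rw [← neg_one_smul ℂ x]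
  congr 1
  norm_num

/-! ### on `X 0` -/

theorem x_X0 (x : A) (hx : ∀ k, D.d k x = if k = 0 then 1 else 0) (n : ℕ) :
    M.W.Y (C x) n (X 0) = if n = 0 then -1 else 0 := by
  have h := M.a_rec x n 0 1
  rw [mul_one] at h
  rw [h]
  have h1 : M.W.Y (C x) n 1 = 0 := by
    have := M.a_nonneg x 1 n
    rwa [C_1] at this
  rw [h1, mul_zero, zero_sub, finsum_eq_single _ 0]
  · rw [hx, if_pos rfl, one_mode]
    simp only [Nat.cast_zero, sub_zero, Ring.choose_zero_right, one_smul]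
    by_cases hn : n = 0
    · rw [if_pos (by omega), if_pos hn]
    · rw [if_neg (by omega), if_neg hn, neg_zero]
  · intro k hk
    rw [hx, if_neg hk, map_zero, map_zero]
    simp

theorem Tx_X0 (hAS : AssocStmt) (x : A) (hx : ∀ k, D.d k x = if k = 0 then 1 else 0) (n : ℕ) :
    M.W.Y (C (D.T x)) n (X 0) = if n = 1 then 1 else 0 := by
  rw [← M.T_C, T_modes M.W hAS]
  cases n with
  | zero => simp
  | succ n =>
    have e1 : ((n + 1 : ℕ) : ℤ) - 1 = n := by push_cast; ring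
    rw [e1, x_X0 D M x hx]
    by_cases hn : n = 0
    · subst hn; simp
    · rw [if_neg hn, if_neg (by omega), smul_zero]

theorem om_X0 (hAS : AssocStmt) (x : A) (hx : ∀ k, D.d k x = if k = 0 then 1 else 0) (m : ℕ) :
    M.W.Y (om D x) m (X 0) = if m = 0 then X 1 else if m = 1 then (2 : ℂ) • X 0 else 0 := by
  have hb : ∀ j : ℕ, M.W.Y (X 0) j (X 0) = 0 := by
    intro j
    rw [M.b_nonneg, mapDer_X]
  have h1 : ∀ j : ℕ, M.W.Y (C x) ((m : ℤ) + j) (X 0) = if m + j = 0 then -1 else 0 := by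
    intro j
    have := x_X0 D M x hx (m + j)
    rw [← this]
    push_cast
    rfl
  have h2 : ∀ j : ℕ, M.W.Y (C (D.T x)) ((m : ℤ) + j) (X 0) = if m + j = 1 then 1 else 0 := by
    intro j
    have := Tx_X0 D M hAS x hx (m + j)
    rw [← this]
    push_cast
    rfl
  have bn : ∀ n : ℕ, M.W.Y (X 0) (-1 - n) 1 = X n := by
    intro n
    have h := M.b_neg n 1
    rw [mul_one] at h
    rw [← h]
    have e1 : (-(n : ℤ) - 1) = -1 - n := by ring
    rw [e1]
  rw [om_mode D M hAS]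
  simp only [hb, map_zero, smul_zero, finsum_zero, add_zero, sub_zero, h1, h2]
  rcases Nat.lt_or_ge m 2 with hm | hm
  · interval_cases m
    · rw [finsum_eq_single _ 1, finsum_eq_single _ 0]
      · simp only [zero_add, if_true]
        rw [bn, map_neg]
        have e2 : (-2 : ℤ) - ((0 : ℕ) : ℤ) = -1 - ((1 : ℕ) : ℤ) := by norm_num
        rw [e2, bn]
        simp only [Nat.cast_zero, zero_add, one_smul, two_smul]
        abel
      · intro j hj
        rw [if_neg (by omega)]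
        simp
      · intro j hj
        rw [if_neg (by omega)]
        simp
    · rw [finsum_eq_single _ 0]
      · rw [if_pos (by omega), bn]
        have : ∀ j : ℕ, ((j : ℤ) + 1) • M.W.Y (X 0) (-2 - j)
            (if 1 + j = 0 then (-1 : MvPolynomial ℕ A) else 0) = 0 := by
          intro j
          rw [if_neg (by omega)]
          simp
        rw [finsum_congr this, finsum_zero, add_zero, if_neg (by omega), if_pos rfl]
      · intro j hj
        rw [if_neg (by omega)]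
        simp
  · rw [if_neg (by omega), if_neg (by omega)]
    have t1 : ∀ j : ℕ, M.W.Y (X 0) (-1 - j)
        (if m + j = 1 then (1 : MvPolynomial ℕ A) else 0) = 0 := by
      intro j
      rw [if_neg (by omega)]
      simp
    have t2 : ∀ j : ℕ, ((j : ℤ) + 1) • M.W.Y (X 0) (-2 - j)
        (if m + j = 0 then (-1 : MvPolynomial ℕ A) else 0) = 0 := by
      intro j
      rw [if_neg (by omega)]
      simp
    rw [finsum_congr t1, finsum_congr t2, finsum_zero, smul_zero, add_zero]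

theorem aneg1 (x : A) : M.W.Y (C x) (-1) (C 1) = C x := by
  have h := M.a_neg x 1 0
  rw [Tj_zero, mul_one] at h
  exact h

/-! ### commutators -/

section comm

variable (hAS : AssocStmt) (hCF : CommStmt) (x : A)
  (hx : ∀ k, D.d k x = if k = 0 then 1 else 0)

include hAS hCF hx

theorem c_X0 (m k : ℤ) (w : MvPolynomial ℕ A) :
    M.W.Y (om D x) m (M.W.Y (X 0) k w) = M.W.Y (X 0) k (M.W.Y (om D x) m w) +
      (m - k) • M.W.Y (X 0) (m + k - 1) w := by
  rw [comm_modes M.W hCF (om D x) (X 0) w m k 2 (fun j hj => by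
    rw [om_X0 D M hAS x hx, if_neg (by omega), if_neg (by omega)])]
  congr 1
  rw [Finset.sum_range_succ, Finset.sum_range_one, om_X0 D M hAS x hx, om_X0 D M hAS x hx,
    if_pos rfl, if_neg (by norm_num), if_pos rfl]
  have h1 : (X 1 : MvPolynomial ℕ A) = M.W.T (X 0) := by rw [M.T_X]; simp
  rw [h1, T_modes M.W hAS, map_smul]
  simp only [Ring.choose_zero_right, Ring.choose_one_right, one_smul, Nat.cast_zero, sub_zero,
    Nat.cast_one]
  change -(m + k) • M.W.Y (X 0) (m + k - 1) w +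
    m • ((2 : ℂ) • M.W.Y (X 0) (m + k - 1) w) = _
  have h2 : ∀ v : MvPolynomial ℕ A, (2 : ℂ) • v = (2 : ℤ) • v := by
    intro v
    rw [← Int.cast_smul_eq_zsmul ℂ]
    norm_num
  rw [h2, smul_smul, ← add_smul]
  congr 1
  ring

theorem c_x (m k : ℤ) (w : MvPolynomial ℕ A)
    (hT : ∀ a, D.T a = ∑ᶠ j : ℕ, ((j : ℂ) + 1) • (D.Tj (j + 1) x * D.d j a)) :
    M.W.Y (om D x) m (M.W.Y (C x) k w) = M.W.Y (C x) k (M.W.Y (om D x) m w) -
      (2 * m + k) • M.W.Y (C x) (m + k - 1) w := by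
  rw [comm_modes M.W hCF (om D x) (C x) w m k 2 (fun j hj => om_x2 D M hAS x hx j hj)]
  rw [sub_eq_add_neg]
  congr 1
  rw [Finset.sum_range_succ, Finset.sum_range_one]
  have h0 := om_zero D M hAS x x hT
  have h1 := om_x1 D M hAS x hx
  simp only [Ring.choose_zero_right, Ring.choose_one_right, one_smul, Nat.cast_zero, sub_zero,
    Nat.cast_one]
  rw [h0, h1, ← M.T_C, T_modes M.W hAS, map_neg]
  change -(m + k) • M.W.Y (C x) (m + k - 1) w + m • (-(M.W.Y (C x) (m + k - 1) w)) = _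
  rw [smul_neg, ← neg_smul, ← neg_smul, ← add_smul]
  congr 1
  ring

theorem om_om (m : ℕ) 
    (hT : ∀ a, D.T a = ∑ᶠ j : ℕ, ((j : ℂ) + 1) • (D.Tj (j + 1) x * D.d j a)) :
    M.W.Y (om D x) m (om D x) =
      (2 * ((m : ℤ) + 1)) • M.W.Y (X 0) ((m : ℤ) - 2) (C (D.T x)) -
      (2 * (2 * (m : ℤ) - 2)) • M.W.Y (X 0) (-1) (M.W.Y (C x) ((m : ℤ) - 3) (C 1)) +
      ((m : ℤ) + 2) • M.W.Y (X 0) ((m : ℤ) - 3) (C x) -
      (2 * (m : ℤ) - 1) • M.W.Y (X 0) (-2) (M.W.Y (C x) ((m : ℤ) - 2) (C 1)) := by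
  have h0 : (X 0 * C (D.T x) : MvPolynomial ℕ A) = M.W.Y (X 0) (-1) (C (D.T x)) := by
    have := M.b_neg 0 (C (D.T x))
    simpa using this.symm
  have h1 : (X 1 * C x : MvPolynomial ℕ A) = M.W.Y (X 0) (-2) (C x) := by
    have := M.b_neg 1 (C x)
    rw [← this]
    norm_num
  have e1 : (C (D.T x) : MvPolynomial ℕ A) = M.W.Y (C x) (-2) (C 1) := by
    have h := M.a_neg x 1 1
    rw [Tj_one, mul_one] at h
    rw [← h]
    norm_num
  have e0 : (C x : MvPolynomial ℕ A) = M.W.Y (C x) (-1) (C 1) := (aneg1 D M x).symm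
  have v0 : M.W.Y (om D x) m (C 1) = 0 := by
    have : (C 1 : MvPolynomial ℕ A) = M.W.vac := by rw [M.vac, C_1]
    rw [this, M.W.creat_nonneg _ _ (by omega)]
  have k1 : M.W.Y (om D x) m (C (D.T x)) = -(2 * (m : ℤ) - 2) •
      M.W.Y (C x) ((m : ℤ) - 3) (C 1) := by
    rw [e1, c_x D M hAS hCF x hx _ _ _ hT, v0, map_zero, zero_sub, ← neg_smul]
    congr 2
    ring
  have k2 : M.W.Y (om D x) m (C x) = -(2 * (m : ℤ) - 1) •
      M.W.Y (C x) ((m : ℤ) - 2) (C 1) := by
    conv_lhs => rw [e0]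
    rw [c_x D M hAS hCF x hx _ _ _ hT, v0, map_zero, zero_sub, ← neg_smul]
    have e1 : (m : ℤ) + -1 - 1 = m - 2 := by ring
    rw [e1]
    congr 1
  have h2 : ∀ v : MvPolynomial ℕ A, (2 : ℂ) • v = (2 : ℤ) • v := by
    intro v
    rw [← Int.cast_smul_eq_zsmul ℂ]
    norm_num
  conv_lhs => rw [show (M.W.Y (om D x) m (om D x)) = (M.W.Y (om D x) m)
    ((2 : ℂ) • (X 0 * C (D.T x)) + X 1 * C x) from rfl]
  rw [h0, h1, map_add, map_smul, c_X0 D M hAS hCF x hx, c_X0 D M hAS hCF x hx, k1, k2, map_zsmul,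
    map_zsmul, h2, smul_add, smul_smul, smul_smul]
  have e3 : (m : ℤ) + -1 - 1 = m - 2 := by ring
  have e4 : (m : ℤ) + -2 - 1 = m - 3 := by ring
  rw [e3, e4]
  have f1 : (2 : ℤ) * -(2 * (m : ℤ) - 2) = -(2 * (2 * (m : ℤ) - 2)) := by ring
  have f2 : (2 : ℤ) * ((m : ℤ) - -1) = 2 * ((m : ℤ) + 1) := by ring
  have f3 : ((m : ℤ) - -2) = ((m : ℤ) + 2) := by ring
  rw [f1, f2, f3, neg_smul, neg_smul]
  abel

theorem om_om1
    (hT : ∀ a, D.T a = ∑ᶠ j : ℕ, ((j : ℂ) + 1) • (D.Tj (j + 1) x * D.d j a)) :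
    M.W.Y (om D x) 1 (om D x) = (2 : ℤ) • om D x := by
  have h := om_om D M hAS hCF x hx 1 hT
  rw [Nat.cast_one] at h
  rw [h]
  have h0 : (X 0 * C (D.T x) : MvPolynomial ℕ A) = M.W.Y (X 0) (-1) (C (D.T x)) := by
    have := M.b_neg 0 (C (D.T x))
    simpa using this.symm
  have h1 : (X 1 * C x : MvPolynomial ℕ A) = M.W.Y (X 0) (-2) (C x) := by
    have := M.b_neg 1 (C x)
    rw [← this]
    norm_num
  have e0 : M.W.Y (C x) ((1 : ℤ) - 2) (C 1) = C x := aneg1 D M x
  have h2 : ∀ v : MvPolynomial ℕ A, (2 : ℂ) • v = (2 : ℤ) • v := by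
    intro v
    rw [← Int.cast_smul_eq_zsmul ℂ]
    norm_num
  unfold om
  rw [e0, h0, h1, h2, smul_add, smul_smul]
  have e3 : (1 : ℤ) - 2 = -1 := by ring
  have e4 : (1 : ℤ) - 3 = -2 := by ring
  rw [e3, e4]
  generalize M.W.Y (X 0) (-1) (C (D.T x)) = P
  generalize M.W.Y (X 0) (-2) (C x) = Q
  norm_num
  ring

theorem om_om2
    (hT : ∀ a, D.T a = ∑ᶠ j : ℕ, ((j : ℂ) + 1) • (D.Tj (j + 1) x * D.d j a)) :
    M.W.Y (om D x) 2 (om D x) = 0 := by
  have h := om_om D M hAS hCF x hx 2 hT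
  rw [Nat.cast_two] at h
  rw [h]
  have e0 : M.W.Y (C x) ((2 : ℤ) - 3) (C 1) = C x := aneg1 D M x
  have e1 : M.W.Y (C x) ((2 : ℤ) - 2) (C 1) = 0 := M.a_nonneg x 1 0
  have e2 : M.W.Y (X 0) ((2 : ℤ) - 2) (C (D.T x)) = 0 := by
    have := M.b_nonneg 0 (C (D.T x))
    rw [mapDer_C, D.dT0, hx, if_pos rfl, Derivation.map_one_eq_zero, map_zero] at this
    exact this
  rw [e0, e1, e2, map_zero]
  have e4 : (2 : ℤ) - 3 = -1 := by ring
  rw [e4]
  norm_num

theorem om_om3
    (hT : ∀ a, D.T a = ∑ᶠ j : ℕ, ((j : ℂ) + 1) • (D.Tj (j + 1) x * D.d j a)) :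
    M.W.Y (om D x) 3 (om D x) = (13 : ℤ) • (C 1) := by
  have h := om_om D M hAS hCF x hx 3 hT
  rw [show (((3 : ℕ)) : ℤ) = 3 from rfl] at h
  rw [h]
  have e0 : M.W.Y (C x) ((3 : ℤ) - 3) (C 1) = 0 := M.a_nonneg x 1 0
  have e1 : M.W.Y (C x) ((3 : ℤ) - 2) (C 1) = 0 := M.a_nonneg x 1 1
  have e2 : M.W.Y (X 0) ((3 : ℤ) - 2) (C (D.T x)) = C 1 := by
    have := M.b_nonneg 1 (C (D.T x))
    rw [mapDer_C, D.dT 0, hx, hx, if_neg (by omega), if_pos rfl, map_zero, zero_add] at this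
    simpa using this
  have e3 : M.W.Y (X 0) ((3 : ℤ) - 3) (C x) = C 1 := by
    have := M.b_nonneg 0 (C x)
    rw [mapDer_C, hx, if_pos rfl] at this
    exact this
  rw [e0, e1, e2, e3, map_zero, map_zero, smul_zero, smul_zero, sub_zero, sub_zero, ← add_smul]
  norm_num

theorem om_om4 (m : ℕ) (hm : 4 ≤ m)
    (hT : ∀ a, D.T a = ∑ᶠ j : ℕ, ((j : ℂ) + 1) • (D.Tj (j + 1) x * D.d j a)) :
    M.W.Y (om D x) m (om D x) = 0 := by
  rw [om_om D M hAS hCF x hx m hT]
  obtain ⟨n, rfl⟩ : ∃ n, m = n + 4 := ⟨m - 4, by omega⟩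
  have e0 : M.W.Y (C x) (((n + 4 : ℕ) : ℤ) - 3) (C 1) = 0 := by
    have := M.a_nonneg x 1 (n + 1)
    rw [← this]
    congr 2
    push_cast
    ring
  have e1 : M.W.Y (C x) (((n + 4 : ℕ) : ℤ) - 2) (C 1) = 0 := by
    have := M.a_nonneg x 1 (n + 2)
    rw [← this]
    congr 2
    push_cast
    ring
  have e2 : M.W.Y (X 0) (((n + 4 : ℕ) : ℤ) - 2) (C (D.T x)) = 0 := by
    have := M.b_nonneg (n + 2) (C (D.T x))
    rw [mapDer_C, D.dT (n + 1), hx, hx, if_neg (by omega), if_neg (by omega), map_zero, zero_add,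
      smul_zero, map_zero] at this
    rw [← this]
    congr 2
    push_cast
    ring
  have e3 : M.W.Y (X 0) (((n + 4 : ℕ) : ℤ) - 3) (C x) = 0 := by
    have := M.b_nonneg (n + 1) (C x)
    rw [mapDer_C, hx, if_neg (by omega), map_zero] at this
    rw [← this]
    congr 2
    push_cast
    ring
  rw [e0, e1, e2, e3, map_zero, map_zero]
  simp

end comm

end model

/-- polynomial induction for submodules -/
theorem span_ind {A : Type} [CommRing A] [Algebra ℂ A] (S : Submodule ℂ (MvPolynomial ℕ A))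
    (h0 : ∀ a, C a ∈ S) (h1 : ∀ n, ∀ v ∈ S, X n * v ∈ S) : S = ⊤ := by
  rw [eq_top_iff]
  intro v hv
  clear hv
  induction v using MvPolynomial.induction_on with
  | C a => exact h0 a
  | add p q hp hq => exact S.add_mem hp hq
  | mul_X p n hp =>
    rw [mul_comm]
    exact h1 n p hp

theorem conf : ConfStmt := by
  intro hAS hCF A _ _ D M x hx hT hspan
  have hom : (2 : ℂ) • (X 0 * C (D.T x)) + X 1 * C x = om D x := rfl
  rw [hom]
  have hL : ∀ v, M.W.Y (om D x) 0 v = M.W.T v := by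
    intro v
    have : v ∈ LinearMap.eqLocus (M.W.Y (om D x) 0) M.W.T := by
      rw [span_ind (LinearMap.eqLocus (M.W.Y (om D x) 0) M.W.T)]
      · trivial
      · intro a
        rw [LinearMap.mem_eqLocus, om_zero D M hAS x a hT, M.T_C]
      · intro n v hv
        rw [LinearMap.mem_eqLocus] at hv ⊢
        rw [← M.b_neg, c_X0 D M hAS hCF x hx, hv]
        have h := M.W.T_comm (X 0) (-(n : ℤ) - 1) v
        rw [sub_eq_iff_eq_add] at h
        rw [h, add_comm]
        have e1 : (0 : ℤ) - (-(n : ℤ) - 1) = -(-(n : ℤ) - 1) := by ring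
        have e2 : (0 : ℤ) + (-(n : ℤ) - 1) - 1 = -(n : ℤ) - 1 - 1 := by ring
        rw [e1, e2]
    exact this
  constructor
  · intro m n v
    rw [comm_modes M.W hCF (om D x) (om D x) v (m + 1) (n + 1) 4
      (fun j hj => om_om4 D M hAS hCF x hx j hj hT)]
    rw [add_sub_cancel_left]
    have g1 := om_om1 D M hAS hCF x hx hT
    have g2 := om_om2 D M hAS hCF x hx hT
    have g3 := om_om3 D M hAS hCF x hx hT
    have g0 : M.W.Y (om D x) 0 (om D x) = M.W.T (om D x) := hL _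
    rw [Finset.sum_range_succ, Finset.sum_range_succ, Finset.sum_range_succ,
      Finset.sum_range_one]
    simp only [Nat.cast_zero, Nat.cast_one, Nat.cast_ofNat, Ring.choose_zero_right,
      Ring.choose_one_right, one_smul, sub_zero, g0, g1, g2, g3]
    rw [T_modes M.W hAS, map_zsmul, map_zsmul, map_zero]
    have e1 : m + 1 + (n + 1) - 1 = m + n + 1 := by ring
    have e3 : m + 1 + (n + 1) - 3 = m + n - 1 := by ring
    rw [e1, e3]
    change -(m + 1 + (n + 1)) • M.W.Y (om D x) (m + n + 1) v +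
      (m + 1) • ((2 : ℤ) • M.W.Y (om D x) (m + n + 1) v) + Ring.choose (m + 1) 2 • 0 +
      Ring.choose (m + 1) 3 • ((13 : ℤ) • M.W.Y (C 1) (m + n - 1) v) = _
    rw [one_mode, smul_zero, add_zero, smul_smul, ← add_smul]
    congr 1
    · congr 1
      ring
    · have hc : ((Ring.choose (m + 1) 3 : ℤ) : ℂ) = ((m : ℂ) ^ 3 - m) / 6 := by
        have h := choose3 m
        have h' : ((6 * Ring.choose (m + 1) 3 : ℤ) : ℂ) = ((m ^ 3 - m : ℤ) : ℂ) := by rw [h]
        push_cast at h'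
        rw [← h']
        ring
      by_cases hmn : m + n = 0
      · rw [if_pos (by omega), if_pos hmn, smul_smul, ← Int.cast_smul_eq_zsmul ℂ]
        congr 1
        push_cast
        rw [hc]
        ring
      · rw [if_neg (by omega), if_neg hmn]
        simp
  · exact hL
  · apply span_ind
    · intro a
      have ha : a ∈ Submodule.span ℂ {a : A | ∃ n : ℤ,
        ∑ᶠ j : ℕ, ((j : ℂ) - 1) • (D.Tj j x * D.d j a) = (n : ℂ) • a} := by
        rw [hspan]; trivial
      induction ha using Submodule.span_induction with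
      | mem a h =>
        obtain ⟨n, hn⟩ := h
        apply Submodule.mem_iSup_of_mem n
        rw [Module.End.mem_eigenspace_iff, om_one D M hAS, hn, C_sm]
      | zero => rw [map_zero]; exact Submodule.zero_mem _
      | add a b _ _ ha hb => rw [map_add]; exact Submodule.add_mem _ ha hb
      | smul c a _ ha => rw [C_sm]; exact Submodule.smul_mem _ c ha
    · intro n v hv
      induction hv using Submodule.iSup_induction' with
      | mem i v hv =>
        apply Submodule.mem_iSup_of_mem (i + n + 2)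
        rw [Module.End.mem_eigenspace_iff] at hv ⊢
        rw [← M.b_neg, c_X0 D M hAS hCF x hx, hv, map_smul]
        have e2 : (1 : ℤ) + (-(n : ℤ) - 1) - 1 = -(n : ℤ) - 1 := by ring
        rw [e2, ← Int.cast_smul_eq_zsmul ℂ, ← add_smul]
        congr 1
        push_cast
        ring
      | zero => rw [mul_zero]; exact Submodule.zero_mem _
      | add v w _ _ hv hw => rw [mul_add]; exact Submodule.add_mem _ hv hw

end Pool.Agent.H21.VA
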